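import Pool.Agent.Q115.DU.Tri
import Pool.Agent.Z125.UN.Schur

/-!
# Schur functors that kill motives, and tripartite hypergraphs

Let `k` be `ℚ` or a prime field `𝔽_p` (`Frac k`). For a finite set `H` of triples of natural numbers
let `X_H` be the smooth affine cubic hypersurface `∑_{(i, j, l) ∈ H} x_i y_j z_l = 1` over `k`.

**Theorem.** For every smooth separated scheme `X` of finite type over `k` there is one `H` such that
for ALL Young diagrams `μ`: if the Schur functor `S_μ` kills `M(X_H)`, then the Schur functor of the
transposed diagram kills `M(X)`. The same is true for the motive with compact support of every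
affine scheme of finite type over `k`, with one `H` and simultaneously for all motives which are
obtained from it by shifts and Tate twists.

So the diagram, and in particular its size, is kept (up to transposition), for each variety
separately. The proof does not use that Schur-finite objects have the property two out of three in
distinguished triangles: up to shifts and Tate twists, the motive of `X` is a direct factor of the
motive of one `X_H`.
-/

set_option autoImplicit false

open CategoryTheory CategoryTheory.Limits MonoidalCategory AlgebraicGeometry Pretriangulated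
  Pool.Agent.TH137.DG Pool.Agent.Y116.UV Pool.Agent.Z125.UN Pool.Agent.Q193.LT Pool.Agent.Q115.DU

namespace Pool.Agent.Results.MP_fc2ced_ag.OneHypergraphSameDiagram

universe v u

/-- The Schur functor of the diagram `μ` (with at least one cell) kills `a`. -/
def Kills {C : Type u} [Category.{v} C] [MonoidalCategory C] [SymmetricCategory C]
    [Preadditive C] [Linear ℚ C] (μ : YoungDiagram) (a : C) : Prop :=
  ∃ (n : ℕ) (T : Fin n ≃ μ.cells), 1 ≤ n ∧ grpAct a n (youngSymmetrizer T) = 0

variable {k : Type} [Field k] {C : Type u} [Category.{v} C] [MonoidalCategory C]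
  [SymmetricCategory C] [Preadditive C] [Linear ℚ C] [HasZeroObject C] [HasShift C ℤ]
  [∀ n : ℤ, (shiftFunctor C n).Additive] [Pretriangulated C]

omit [HasZeroObject C] [∀ n : ℤ, (shiftFunctor C n).Additive] [Pretriangulated C] in
/-- An object is Schur-finite if and only if one of the Schur functors kills it. -/
lemma schurFinite_iff (a : C) : IsSchurFinite a ↔ ∃ μ : YoungDiagram, Kills μ a := by
  constructor
  · rintro ⟨n, μ, T, hn, h⟩
    exact ⟨μ, n, T, hn, h⟩
  · rintro ⟨μ, n, T, hn, h⟩
    exact ⟨n, μ, T, hn, h⟩

/-- The standard properties of the motives `M X` and of the motives with compact support.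

* `compact`: the localization triangles and their naturality, affine bundles, zero sections
  (`IsCData`); the twist `tw A` is `A(1)[2]`;
* `shift`: `S_μ (A[1]) = S_μ' (A) [n]`, where `μ'` is the transposed diagram;
* `twist`: `S_μ (A(1)[2]) = S_μ (A) (n)[2n]`;
* `duality`: for smooth `X` the object `Mc X` is the dual of `M X`, up to a Tate twist on each
  connected component, so that `S_μ` kills `M X` if and only if it kills `Mc X`;
* `jouanolou`: there is an affine bundle over `X` whose total space is affine (Jouanolou,
  Thomason). -/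
structure IsMot (D : CData k C) (M : Sch k → C) : Prop where
  compact : IsCData D
  shift : ∀ (A : C) (μ : YoungDiagram), Kills μ (A⟦(1 : ℤ)⟧) → Kills μ.transpose A
  twist : ∀ (A : C) (μ : YoungDiagram), Kills μ (D.tw A) → Kills μ A
  duality : ∀ (X : Sch k) (μ : YoungDiagram), FT True X → Smooth X.hom →
    (Kills μ (M X) ↔ Kills μ (D.Mc X))
  jouanolou : ∀ X : Sch k, FT True X → Smooth X.hom →
    ∃ (A : Type) (_ : CommRing A) (_ : Algebra k A) (_ : Algebra.FiniteType k A) (r : ℕ),
      Nonempty (D.Mc (aff k A) ≅ D.tw^[r] (D.Mc X))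

variable {D : CData k C} {M : Sch k → C}

omit [HasZeroObject C] [∀ n : ℤ, (shiftFunctor C n).Additive] [Pretriangulated C] in
lemma kills_retract {a b : C} (s : a ⟶ b) (r : b ⟶ a) (h : s ≫ r = 𝟙 a) {μ : YoungDiagram}
    (hb : Kills μ b) : Kills μ a := by
  obtain ⟨n, T, hn, h0⟩ := hb
  refine ⟨n, T, hn, ?_⟩
  have h1 : grpAct a n (youngSymmetrizer T) ≫ tpm s n = 0 := by
    rw [grpAct_nat, h0, comp_zero]
  have h2 : (grpAct a n (youngSymmetrizer T) ≫ tpm s n) ≫ tpm r n = 0 := by
    rw [h1, zero_comp]
  rwa [Category.assoc, tpm_comp, h, tpm_id, Category.comp_id] at h2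

/-- the diagram or the transposed one -/
noncomputable def tr (μ : YoungDiagram) (n : ℤ) : YoungDiagram := if Even n then μ else μ.transpose

lemma tr_succ (μ : YoungDiagram) (n : ℤ) : (tr μ (n + 1)).transpose = tr μ n := by
  unfold tr
  rcases Int.even_or_odd n with h | h
  · rw [if_pos h, if_neg (by rw [Int.even_add_one]; exact not_not.2 h),
      YoungDiagram.transpose_transpose]
  · rw [if_neg (Int.not_even_iff_odd.2 h), if_pos (by
      rw [Int.even_add_one]; exact Int.not_even_iff_odd.2 h)]

lemma kills_descends (hD : IsMot D M) (μ : YoungDiagram) :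
    Descends D fun n a => Kills (tr μ n) a where
  retract _ _ _ s r h hb := kills_retract s r h hb
  shift n A h := by
    have := hD.shift A _ h
    rwa [tr_succ] at this
  twist n A h := hD.twist A _ h

/-- **Schur functors and hypergraph cubics.** -/
theorem result [PerfectField k] (hk : Frac k) (hD : IsMot D M) :
    (∀ X : Sch k, FT True X → Smooth X.hom →
      ∃ (a b c : ℕ) (H : Finset (Fin a × Fin b × Fin c)), ∀ μ : YoungDiagram,
        Kills μ (M (tripS k H)) → Kills μ.transpose (M X)) ∧
    (∀ (A : Type) [CommRing A] [Algebra k A] [Algebra.FiniteType k A],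
      ∃ (a b c : ℕ) (H : Finset (Fin a × Fin b × Fin c)), ∀ P : ℤ → C → Prop, Descends D P →
        ∀ n : ℤ, P (n + 3) (D.Mc (tripS k H)) → P n (D.Mc (aff k A))) ∧
    (∀ a : C, IsSchurFinite a ↔ ∃ μ : YoungDiagram, Kills μ a) := by
  have haff : ∀ (A : Type) [CommRing A] [Algebra k A] [Algebra.FiniteType k A],
      ∃ (a b c : ℕ) (H : Finset (Fin a × Fin b × Fin c)), Dom D 3 (tripS k H) (aff k A) :=
    fun A => one_graph hD.compact hk A
  refine ⟨?_, fun A _ _ _ => ?_, schurFinite_iff⟩
  · intro X hX hs
    obtain ⟨A, _, _, _, r, e⟩ := hD.jouanolou X hX hs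
    obtain ⟨a, b, c, H, h⟩ := haff A
    refine ⟨a, b, c, H, fun μ hμ => ?_⟩
    have hsm : Smooth (tripS k H).hom := by
      change Smooth (Spec.map (CommRingCat.ofHom (algebraMap k (Trip k H))))
      rw [HasRingHomProperty.Spec_iff (P := @Smooth)]
      exact RingHom.smooth_algebraMap.mpr (trip_smooth H)
    have hP := kills_descends hD μ
    have hμ' := (hD.duality (tripS k H) μ (ft_aff True) hsm).1 hμ
    rw [hD.duality X _ hX hs]
    have e1 : tr μ ((-3 : ℤ) + (3 : ℕ)) = μ := by
      unfold tr
      norm_num
    have e2 : tr μ (-3) = μ.transpose := by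
      unfold tr
      rw [if_neg]
      decide
    have h1 : Kills (tr μ (-3)) (D.Mc (aff k A)) := h _ hP (-3) (by
      rw [e1]
      exact hμ')
    have h2 := desc_tw hP (n := -3) _ r (desc_iso hP e h1)
    change Kills (tr μ (-3)) _ at h2
    rwa [e2] at h2
  · obtain ⟨a, b, c, H, h⟩ := haff A
    exact ⟨a, b, c, H, fun P hP n hn => h P hP n hn⟩

end Pool.Agent.Results.MP_fc2ced_ag.OneHypergraphSameDiagram
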