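import Pool.Agent.Q73.QG.Main

/-!
# Schur-finiteness of the motives of quotients by algebraic groups

Let `X` be a smooth variety over an algebraically closed field and `X ⟶ Y` a torsor under an
algebraic group `G` (so `Y = X / G` for a free action of `G` on `X`).

If the motive of `X` is Schur-finite, then so is the motive of `Y`; if `G` is connected, the
converse holds as well. If `G` is connected and linear, the motives of `X` and of `Y` generate the
same thick subcategory stable under `A ↦ A(1)[2]`.

Key point: for a torsor `X ⟶ Y` under the multiplicative group the second morphism of the Gysin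
triangle `M X ⟶ M Y ⟶ M Y (1)[2] ⟶ M X [1]` is nilpotent, and by the octahedral axiom the source
of a nilpotent morphism lies in the thick subcategory generated by its cone.

Applied to the frames of tangent bundles: for every smooth `Y` there is a smooth complete
intersection `X` in an affine space, with trivial tangent bundle, such that the motive of `Y` is
Schur-finite if and only if the motive of `X` is.
-/

set_option autoImplicit false

open CategoryTheory Limits Pretriangulated MonoidalCategory

namespace Pool.Agent.Results.MP_fc2ced_ag.QuotientsByAlgebraicGroups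

open Pool.Agent.TH137.DG Pool.Agent.Q73.QG

universe v u w

/-- **Schur-finiteness and quotients by algebraic groups.** -/
theorem result {C : Type u} [Category.{v} C] [MonoidalCategory C] [SymmetricCategory C]
    [Preadditive C] [Linear ℚ C] [HasZeroObject C] [HasShift C ℤ]
    [∀ n : ℤ, (shiftFunctor C n).Additive] [Pretriangulated C] [IsTriangulated C]
    [HasBinaryBiproducts C] (F : C ⥤ C) [F.CommShift ℤ] [F.IsTriangulated]
    (hS : SchurClosed F) (D : Varieties.{u, w} C) (hD : IsMotivic F D) :
    -- (1) torsors under algebraic groups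
    (AbelianTorsors D →
      (∀ X Y : D.Var, D.Torsor X Y → IsSchurFinite (D.M X) → IsSchurFinite (D.M Y)) ∧
      ∀ X Y : D.Var, D.Joined X Y → (IsSchurFinite (D.M X) ↔ IsSchurFinite (D.M Y))) ∧
    -- (2) torsors under connected linear groups
    (∀ X Y : D.Var, D.LinearlyJoined X Y → (IsSchurFinite (D.M X) ↔ IsSchurFinite (D.M Y)) ∧
      ∀ P : C → Prop, IsThick F P → (P (D.M X) ↔ P (D.M Y))) ∧
    -- (3) each variety is joined to a complete intersection with trivial tangent bundle
    (D.FrameBundles →
      (∀ Y : D.Var, ∃ X : D.Var, D.Special X ∧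
        (IsSchurFinite (D.M X) ↔ IsSchurFinite (D.M Y)) ∧
        ∀ P : C → Prop, IsThick F P → (P (D.M X) ↔ P (D.M Y))) ∧
      ((∀ Y : D.Var, IsSchurFinite (D.M Y)) ↔
        ∀ X : D.Var, D.Special X → IsSchurFinite (D.M X))) := by
  have h2 : ∀ X Y : D.Var, D.LinearlyJoined X Y →
      (IsSchurFinite (D.M X) ↔ IsSchurFinite (D.M Y)) ∧
      ∀ P : C → Prop, IsThick F P → (P (D.M X) ↔ P (D.M Y)) := fun X Y h =>
    ⟨linearlyJoined_iff hD (isThick_schur hS) h, fun P hP => linearlyJoined_iff hD hP h⟩
  refine ⟨fun hA => ⟨fun X Y h => torsor_imp hS hD hA h, fun X Y h => joined_iff hS hD hA h⟩,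
    h2, fun hN => ?_⟩
  have h3 : ∀ Y : D.Var, ∃ X : D.Var, D.Special X ∧
      (IsSchurFinite (D.M X) ↔ IsSchurFinite (D.M Y)) ∧
      ∀ P : C → Prop, IsThick F P → (P (D.M X) ↔ P (D.M Y)) := by
    intro Y
    obtain ⟨Y', X, a1, a2, a3⟩ := hN Y
    exact ⟨X, a3, h2 X Y (Relation.EqvGen.trans _ _ _ (Relation.EqvGen.rel _ _ (Or.inr a2))
      (Relation.EqvGen.rel _ _ (Or.inl a1)))⟩
  refine ⟨h3, fun h X _ => h X, fun h Y => ?_⟩
  obtain ⟨X, b1, b2, _⟩ := h3 Y
  exact b2.1 (h X b1)

end Pool.Agent.Results.MP_fc2ced_ag.QuotientsByAlgebraicGroups
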