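import Mathlib
import Pool.Agent.Q63.SP.Motive

/-!
# Schur-finiteness of the motives of open strata of abelian coverings of projective spaces

Let `k` be an algebraically closed field (the case of a perfect field follows by base change to the algebraic closure), `m` an
integer which is prime to the characteristic, and `X → P^n` a smooth abelian covering, branched over `s ≥ n + 3`
hyperplanes in general position, with a group which is a quotient of `(ℤ/m)^s`. Let `U ⊆ X` be the complement of the preimages
of the hyperplanes with the indices in a set `J`. If for every character `a` of the covering group the number of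
the hyperplanes over which `a` is ramified, plus the smaller one of `n - 2` and of the number of the `j` in `J` over which `a`
is not ramified, is at most `n + 3`, then the motive of `U` is Schur-finite, and belongs to the thick tensor
subcategory generated by the motives of curves.

The condition is true for all characters and all `J` if `s = n + 3`. So the theorem applies to all open subvarieties `U` of a
smooth complete intersection `X ⊂ P^(n+2)` of two diagonal hypersurfaces `∑ b_i x_i ^ m = ∑ c_i x_i ^ m = 0` which are defined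
by `x_j ≠ 0` for `j` in a set `J`: for example to the affine varieties
`∑ b_i x_i ^ m = 1`, `∑ c_i x_i ^ m = c`, for all `m` and `n`. For `m = 2`, `J = ∅` it applies to the complete intersections
of three diagonal quadrics of an odd dimension.

1. The motive of a smooth projective covering is the sum of the parts for the characters `a`, and these are
direct factors of the motives of the cyclic coverings of `P^n` with the exponents `a`. If `a` is ramified over at most
`n + 3` hyperplanes, these are images of powers `C ^ n` of curves under symmetric maps (`IsCurvePower`, proved in Lean), so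
their motives are direct summands of the motives of powers of curves.

2. For `n ≥ 2` the preimage of a branch hyperplane is a covering of `P^(n-1)`, branched over the
intersections with the other hyperplanes, which are in general position, with the characters which are not ramified
over the hyperplane. The localization triangles and an induction over `n` and `J` give the theorem.
-/

set_option autoImplicit false

namespace Pool.Agent.Results.MP_fc2ced_ag.StrataOfAbelianCoverings

open CategoryTheory Multiplicative Matrix Pool.Agent.Q63.KU Pool.Agent.Q63.KI Pool.Agent.Q63.SP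

/-- The number of the `j` in `J` with `a j = 0`. -/
def zeros {m s : ℕ} (J : Finset (Fin s)) (a : Fin s → ZMod m) : ℕ := (J.filter fun j => a j = 0).card

/-- The condition on the characters of the covering of `P^n` and the set `J`. -/
def Bounded {m s : ℕ} (n : ℕ) (Λ : AddSubgroup (Fin s → ZMod m)) (J : Finset (Fin s)) : Prop :=
  ∀ a ∈ Λ, lines a + min (zeros J a) (n - 2) ≤ n + 3

/-- The product of the `a i`-th powers of the linear forms has a degree divisible by `m`, for all `a` in `Λ`. -/
def SumZero {m s : ℕ} (Λ : AddSubgroup (Fin s → ZMod m)) : Prop := ∀ a ∈ Λ, ∑ i, a i = 0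

/-- The linear forms `w i` are, in coordinates on the hyperplane `v j ⬝ᵥ z = 0`, the restrictions of the other `v i`. -/
def IsRestriction {k : Type} [Field k] {s n : ℕ} (v : Fin (s + 1) → Fin (n + 2) → k) (j : Fin (s + 1))
    (w : Fin s → Fin (n + 1) → k) : Prop :=
  ∃ A : (Fin (n + 1) → k) →ₗ[k] (Fin (n + 2) → k), Function.Injective A ∧ (∀ z, v j ⬝ᵥ A z = 0) ∧
    ∀ i z, w i ⬝ᵥ z = v (j.succAbove i) ⬝ᵥ A z

/-- The characters which are not ramified over the `j`-th hyperplane, as characters of the restricted covering. -/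
def restrictChars {m s : ℕ} (Λ : AddSubgroup (Fin (s + 1) → ZMod m)) (j : Fin (s + 1)) :
    AddSubgroup (Fin s → ZMod m) where
  carrier := {b | ∃ a ∈ Λ, a j = 0 ∧ ∀ i, a (j.succAbove i) = b i}
  zero_mem' := ⟨0, Λ.zero_mem, rfl, fun _ => rfl⟩
  add_mem' := by
    rintro b b' ⟨a, ha, h1, h2⟩ ⟨a', ha', h1', h2'⟩
    exact ⟨a + a', Λ.add_mem ha ha', by simp [h1, h1'], fun i => by simp [h2, h2']⟩
  neg_mem' := by
    rintro b ⟨a, ha, h1, h2⟩
    exact ⟨-a, Λ.neg_mem ha, by simp [h1], fun i => by simp [h2]⟩

/-- The indices of the other hyperplanes in `J`. -/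
def restrictSet {s : ℕ} (J : Finset (Fin (s + 1))) (j : Fin (s + 1)) : Finset (Fin s) :=
  Finset.univ.filter fun i => j.succAbove i ∈ J

/-- `X → P^n` is the normal abelian covering over the field `k`, branched over the `s` hyperplanes `v i ⬝ᵥ z = 0` in
general position (it is smooth, or a quotient of a smooth projective variety by a finite group), with a group which is a quotient of `(ℤ/m)^s`, where the `i`-th generator goes to the
canonical generator of the inertia group of the `i`-th hyperplane; `Λ` is the group of its characters. `M` is the motive of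
`X` with coefficients in `ℂ`, `ρ` is the action of `(ℤ/m)^s`, `Q a` is the motive of the quotient variety
`X / ker a`, `push a` and `pull a` are the push-forward (divided by the degree) and the pull-back. -/
structure CoverMotive {k : Type} [Field k] {𝒞 : Type} [Category.{0} 𝒞] [Preadditive 𝒞] [Linear ℂ 𝒞]
    {m s n : ℕ} [NeZero m] (v : Fin s → Fin (n + 1) → k) (Λ : AddSubgroup (Fin s → ZMod m))
    (ψ : AddChar (ZMod m) ℂ) (P : 𝒞 → Prop) (M : 𝒞) (ρ : Multiplicative (Fin s → ZMod m) →* End M)
    (Q : (Fin s → ZMod m) → 𝒞) (push : ∀ a, M ⟶ Q a) (pull : ∀ a, Q a ⟶ M) : Prop where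
  /-- only characters of the covering occur -/
  characters : ∀ a, a ∉ Λ → prj ψ ρ a = 0
  /-- pull-back after push-forward is the average over `ker a` -/
  average : ∀ a ∈ Λ, push a ≫ pull a = ((Fintype.card {h : Fin s → ZMod m // ∑ i, a i * h i = 0} : ℂ))⁻¹ •
    ∑ h : {h : Fin s → ZMod m // ∑ i, a i * h i = 0}, (ρ (ofAdd h.1) : M ⟶ M)
  /-- `X / ker a` is (a component of) the cyclic covering of `P^n` with the exponents `a`. If its affine part is
  the image of the power `C ^ n` of a curve under a symmetric map, it is a quotient of the power of the complete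
  curve by a finite group, so `Q a` is a direct summand of the motive of this power. -/
  known : ∀ a ∈ Λ, IsCurvePower m v (fun i => (a i).val) → P (Q a)

/-- `𝒞` is the category of geometric motives over `k` with coefficients in `ℂ`. For the covering `X → P^n` given by `v` and
`Λ` and a set `J` of indices, `Mc n s v Λ J` and `M n s v Λ J` are the motive with compact supports and
the motive of the open subvariety `U` of `X` of the points which do not lie over the hyperplanes with indices in `J`. `P` is a
property of motives: Schur-finiteness, or that the motive belongs to the thick tensor subcategory generated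
by the motives of curves. -/
structure IsTheory {k : Type} [Field k] [DecidableEq k] {m : ℕ} [NeZero m] (ψ : AddChar (ZMod m) ℂ) {𝒞 : Type}
    [Category.{0} 𝒞] [Preadditive 𝒞] [Linear ℂ 𝒞] (P : 𝒞 → Prop)
    (Mc M : ∀ n s : ℕ, (Fin s → Fin (n + 1) → k) → AddSubgroup (Fin s → ZMod m) → Finset (Fin s) → 𝒞) :
    Prop where
  /-- direct summands of finite sums of objects with `P` -/
  summand : SummandClosed P
  /-- varieties of dimension at most one -/
  small : ∀ n s v Λ J, GenPos v → SumZero Λ → n ≤ 1 → P (Mc n s v Λ J)
  /-- the motives of the projective coverings -/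
  projective : ∀ n s v Λ, GenPos v → SumZero Λ → 2 ≤ n →
    ∃ ρ Q push pull, CoverMotive v Λ ψ P (Mc n s v Λ ∅) ρ Q push pull
  /-- The localization triangle for the preimage of the `j`-th hyperplane in `U`, which is the variety of the same
  kind in dimension `n` given by `w`: if two objects of a triangle have the property `P`, then the third has it. -/
  localization : ∀ n s v Λ J j w, GenPos v → SumZero Λ → 1 ≤ n → j ∉ J → IsRestriction v j w →
    P (Mc (n + 1) (s + 1) v Λ J) → P (Mc n s w (restrictChars Λ j) (restrictSet J j)) →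
    P (Mc (n + 1) (s + 1) v Λ (insert j J))
  /-- duality for smooth varieties (and their quotients by finite groups) -/
  duality : ∀ n s v Λ J, GenPos v → SumZero Λ → P (Mc n s v Λ J) → P (M n s v Λ J)

section motive

variable {k : Type} [Field k] {𝒞 : Type} [Category.{0} 𝒞] [Preadditive 𝒞] [Linear ℂ 𝒞] {M : 𝒞} {m s : ℕ}
  [NeZero m] {ψ : AddChar (ZMod m) ℂ}

theorem cover_motive {n : ℕ} {v : Fin s → Fin (n + 1) → k} {Λ : AddSubgroup (Fin s → ZMod m)}
    (hψ : ψ.IsPrimitive) {P : 𝒞 → Prop} (hP : SummandClosed P)
    {ρ : Multiplicative (Fin s → ZMod m) →* End M} {Q : (Fin s → ZMod m) → 𝒞}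
    {push : ∀ a, M ⟶ Q a} {pull : ∀ a, Q a ⟶ M} (hM : CoverMotive v Λ ψ P M ρ Q push pull)
    (hgood : ∀ a ∈ Λ, IsCurvePower m v (fun i => (a i).val)) : P M := by
  classical
  let e := Fintype.equivFin {a : Fin s → ZMod m // a ∈ Λ}
  refine hP _ (fun n => Q (e.symm n).1) M (fun n => push (e.symm n).1)
    (fun n => pull (e.symm n).1 ≫ prj ψ ρ (e.symm n).1)
    (fun n => hM.known _ (e.symm n).2 (hgood _ (e.symm n).2)) ?_
  have h1 : ∀ a ∈ Λ, push a ≫ pull a ≫ prj ψ ρ a = prj ψ ρ a := by
    intro a ha
    rw [← Category.assoc, hM.average a ha, Linear.smul_comp, Preadditive.sum_comp]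
    have hc : ∀ h : {h : Fin s → ZMod m // ∑ i, a i * h i = 0},
        (ρ (ofAdd h.1) : M ⟶ M) ≫ prj ψ ρ a = prj ψ ρ a := fun h => ker_prj ρ h.2
    rw [Finset.sum_congr rfl fun h _ => hc h, Finset.sum_const, Finset.card_univ,
      ← Nat.cast_smul_eq_nsmul ℂ, smul_smul, inv_mul_cancel₀, one_smul]
    have : Nonempty {h : Fin s → ZMod m // ∑ i, a i * h i = 0} := ⟨⟨0, by simp⟩⟩
    exact_mod_cast Fintype.card_ne_zero
  have h2 : ∑ n, push (e.symm n).1 ≫ pull (e.symm n).1 ≫ prj ψ ρ (e.symm n).1 =
      ∑ a : {a : Fin s → ZMod m // a ∈ Λ}, prj ψ ρ a.1 := by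
    rw [Fintype.sum_equiv e.symm _ (fun a : {a : Fin s → ZMod m // a ∈ Λ} =>
      push a.1 ≫ pull a.1 ≫ prj ψ ρ a.1) fun _ => rfl]
    exact Finset.sum_congr rfl fun a _ => h1 a.1 a.2
  rw [h2]
  have h3 : ∑ a : {a : Fin s → ZMod m // a ∈ Λ}, prj ψ ρ a.1 =
      ∑ a ∈ Finset.univ.filter (fun a => a ∈ Λ), prj ψ ρ a :=
    (Finset.sum_subtype (p := fun a => a ∈ Λ) _ (by simp) _).symm
  rw [h3, Finset.sum_filter, ← sum_prj hψ ρ]
  refine Finset.sum_congr rfl fun a _ => ?_
  by_cases ha : a ∈ Λ
  · rw [if_pos ha]
  · rw [if_neg ha, hM.characters a ha]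

end motive

section restriction

variable {k : Type} [Field k] [DecidableEq k] {s n : ℕ}

lemma genPos_restriction {v : Fin (s + 1) → Fin (n + 2) → k} (hv : GenPos v) {j : Fin (s + 1)}
    {w : Fin s → Fin (n + 1) → k} (hw : IsRestriction v j w) : GenPos w := by
  obtain ⟨A, hA, h0, h1⟩ := hw
  intro z hz
  have hz' : A z ≠ 0 := fun h => hz (hA (by rw [h, map_zero]))
  have h2 := hv (A z) hz'
  have h3 : ((Finset.univ.filter fun i => w i ⬝ᵥ z = 0).map j.succAboveEmb).card + 1 ≤
      (Finset.univ.filter fun i => v i ⬝ᵥ A z = 0).card := by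
    rw [← Finset.card_insert_of_notMem (a := j)]
    · refine Finset.card_le_card fun i hi => ?_
      rw [Finset.mem_insert] at hi
      rw [Finset.mem_filter]
      refine ⟨Finset.mem_univ _, ?_⟩
      rcases hi with rfl | hi
      · exact h0 z
      · rw [Finset.mem_map] at hi
        obtain ⟨l, hl, rfl⟩ := hi
        rw [Finset.mem_filter] at hl
        rw [← hl.2, h1]
        rfl
    · intro h
      rw [Finset.mem_map] at h
      obtain ⟨l, -, hl⟩ := h
      exact Fin.succAbove_ne j l hl
  rw [Finset.card_map] at h3
  omega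

omit [DecidableEq k] in
lemma exists_restriction (v : Fin (s + 1) → Fin (n + 2) → k) (j : Fin (s + 1)) :
    ∃ w : Fin s → Fin (n + 1) → k, IsRestriction v j w := by
  let φ : (Fin (n + 2) → k) →ₗ[k] k :=
    { toFun := fun z => v j ⬝ᵥ z
      map_add' := fun x y => dotProduct_add _ _ _
      map_smul' := fun c x => dotProduct_smul _ _ _ }
  have h1 := LinearMap.finrank_range_add_finrank_ker φ
  have h2 : Module.finrank k (LinearMap.range φ) ≤ 1 := by
    have := Submodule.finrank_le (LinearMap.range φ)
    rwa [Module.finrank_self] at this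
  rw [Module.finrank_fin_fun] at h1
  have h3 : n + 1 ≤ Module.finrank k (LinearMap.ker φ) := by omega
  let b := Module.finBasis k (LinearMap.ker φ)
  let f : Fin (n + 1) → (Fin (n + 2) → k) := fun l => (b (Fin.castLE h3 l) : Fin (n + 2) → k)
  have hf : LinearIndependent k f :=
    (b.linearIndependent.comp _ (Fin.castLE_injective h3)).map' (LinearMap.ker φ).subtype
      (Submodule.ker_subtype _)
  let A : (Fin (n + 1) → k) →ₗ[k] (Fin (n + 2) → k) := Fintype.linearCombination k f
  refine ⟨fun i l => v (j.succAbove i) ⬝ᵥ f l, A, ?_, ?_, ?_⟩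
  · exact hf.fintypeLinearCombination_injective
  · intro z
    change φ (A z) = 0
    rw [Fintype.linearCombination_apply, map_sum]
    refine Finset.sum_eq_zero fun l _ => ?_
    rw [map_smul]
    have : φ (f l) = 0 := (b (Fin.castLE h3 l)).2
    rw [this, smul_zero]
  · intro i z
    rw [Fintype.linearCombination_apply]
    rw [show (fun l => v (j.succAbove i) ⬝ᵥ f l) ⬝ᵥ z = ∑ l, (v (j.succAbove i) ⬝ᵥ f l) * z l from rfl,
      dotProduct_sum]
    refine Finset.sum_congr rfl fun l _ => ?_
    rw [dotProduct_smul, smul_eq_mul, mul_comm]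

end restriction

lemma zeros_mono {m s : ℕ} {J J' : Finset (Fin s)} (h : J ⊆ J') (a : Fin s → ZMod m) :
    zeros J a ≤ zeros J' a := Finset.card_le_card (Finset.filter_subset_filter _ h)

lemma Bounded.mono {m s n : ℕ} {Λ : AddSubgroup (Fin s → ZMod m)} {J J' : Finset (Fin s)} (h : J ⊆ J')
    (hb : Bounded n Λ J') : Bounded n Λ J := by
  intro a ha
  have h1 := hb a ha
  have h2 := zeros_mono h a
  omega

lemma lines_restrict {m s : ℕ} {j : Fin (s + 1)} {a : Fin (s + 1) → ZMod m} {b : Fin s → ZMod m}
    (h0 : a j = 0) (hb : ∀ i, a (j.succAbove i) = b i) : lines b = lines a := by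
  unfold lines
  rw [← Finset.card_map j.succAboveEmb]
  congr 1
  ext i
  simp only [Finset.mem_map, Finset.mem_filter, Finset.mem_univ, true_and]
  constructor
  · rintro ⟨l, hl, rfl⟩
    change a (j.succAbove l) ≠ 0
    rw [hb l]
    exact hl
  · intro hi
    have hij : i ≠ j := fun h => hi (h ▸ h0)
    obtain ⟨l, rfl⟩ := Fin.exists_succAbove_eq hij
    exact ⟨l, by rw [← hb l]; exact hi, rfl⟩

lemma zeros_restrict {m s : ℕ} {j : Fin (s + 1)} {J : Finset (Fin (s + 1))} (hj : j ∉ J)
    {a : Fin (s + 1) → ZMod m} {b : Fin s → ZMod m} (h0 : a j = 0) (hb : ∀ i, a (j.succAbove i) = b i) :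
    zeros (restrictSet J j) b + 1 = zeros (insert j J) a := by
  unfold zeros
  rw [Finset.filter_insert, if_pos h0, Finset.card_insert_of_notMem
    (fun h => hj (Finset.mem_of_mem_filter j h)), ← Finset.card_map j.succAboveEmb]
  congr 2
  ext i
  simp only [restrictSet, Finset.mem_map, Finset.mem_filter, Finset.mem_univ, true_and]
  constructor
  · rintro ⟨l, ⟨hl, hl'⟩, rfl⟩
    refine ⟨hl, ?_⟩
    change a (j.succAbove l) = 0
    rw [hb l]
    exact hl'
  · rintro ⟨hi, hi'⟩
    have hij : i ≠ j := fun h => hj (h ▸ hi)
    obtain ⟨l, rfl⟩ := Fin.exists_succAbove_eq hij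
    exact ⟨l, ⟨hi, by rw [← hb l]; exact hi'⟩, rfl⟩

lemma Bounded.restrict {m s n : ℕ} (hn : 2 ≤ n) {Λ : AddSubgroup (Fin (s + 1) → ZMod m)} {j : Fin (s + 1)}
    {J : Finset (Fin (s + 1))} (hj : j ∉ J) (hb : Bounded (n + 1) Λ (insert j J)) :
    Bounded n (restrictChars Λ j) (restrictSet J j) := by
  rintro b ⟨a, ha, h0, hab⟩
  have h1 := hb a ha
  rw [← zeros_restrict hj h0 hab, ← lines_restrict h0 hab] at h1
  omega

lemma SumZero.restrict {m s : ℕ} {Λ : AddSubgroup (Fin (s + 1) → ZMod m)} (h : SumZero Λ) (j : Fin (s + 1)) :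
    SumZero (restrictChars Λ j) := by
  rintro b ⟨a, ha, h0, hab⟩
  have h1 := h a ha
  rw [Fin.sum_univ_succAbove _ j, h0, zero_add] at h1
  rw [← h1]
  exact Finset.sum_congr rfl fun i _ => (hab i).symm

/-- **Schur-finiteness of the motives of open strata of abelian coverings of projective spaces.** See the explanations
above. -/
theorem result (k : Type) [Field k] [DecidableEq k] [IsAlgClosed k] (m : ℕ) [NeZero m]
    (ψ : AddChar (ZMod m) ℂ) (hψ : ψ.IsPrimitive) {𝒞 : Type} [Category.{0} 𝒞] [Preadditive 𝒞] [Linear ℂ 𝒞]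
    (P : 𝒞 → Prop)
    (Mc M : ∀ n s : ℕ, (Fin s → Fin (n + 1) → k) → AddSubgroup (Fin s → ZMod m) → Finset (Fin s) → 𝒞)
    (hM : IsTheory ψ P Mc M) (n s : ℕ) (hs : n + 3 ≤ s) (v : Fin s → Fin (n + 1) → k) (hv : GenPos v)
    (Λ : AddSubgroup (Fin s → ZMod m)) (hΛ : SumZero Λ) (J : Finset (Fin s))
    (hJ : s = n + 3 ∨ Bounded n Λ J) : P (Mc n s v Λ J) ∧ P (M n s v Λ J) := by
  have main : ∀ (n s : ℕ) (v : Fin s → Fin (n + 1) → k) (Λ : AddSubgroup (Fin s → ZMod m))
      (J : Finset (Fin s)), GenPos v → SumZero Λ → n ≤ 1 ∨ (n + 3 ≤ s ∧ Bounded n Λ J) →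
      P (Mc n s v Λ J) := by
    intro n
    induction n with
    | zero => exact fun s v Λ J hv hΛ _ => hM.small _ _ _ _ _ hv hΛ (by omega)
    | succ n ih =>
      intro s v Λ J hv hΛ h
      rcases Nat.lt_or_ge n 1 with hn | hn
      · exact hM.small _ _ _ _ _ hv hΛ (by omega)
      obtain ⟨hs, hb⟩ : n + 1 + 3 ≤ s ∧ Bounded (n + 1) Λ J := by
        rcases h with h | h
        · omega
        · exact h
      obtain ⟨s, rfl⟩ : ∃ s', s = s' + 1 := ⟨s - 1, by omega⟩
      revert hb
      induction J using Finset.induction_on with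
      | empty =>
        intro hb
        obtain ⟨ρ, Q, push, pull, hc⟩ := hM.projective (n + 1) (s + 1) v Λ hv hΛ (by omega)
        refine cover_motive hψ hM.summand hc fun a ha => ?_
        have hm : 0 < m := Nat.pos_of_ne_zero (NeZero.ne m)
        refine curvePower_of_osculating (by omega) hm ?_
        have h1 : {i | (a i).val ≠ 0} =
            ((Finset.univ.filter fun i => a i ≠ 0 : Finset (Fin (s + 1))) : Set (Fin (s + 1))) := by
          ext i
          simp [ZMod.val_eq_zero]
        rw [h1]
        have h2 := hb a ha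
        have : Infinite k := IsAlgClosed.instInfinite
        exact osculating_of_genPos hv hs (by unfold lines at h2; omega)
      | insert j J hj ihJ =>
        intro hb
        obtain ⟨w, hw⟩ := exists_restriction v j
        refine hM.localization n s v Λ J j w hv hΛ hn hj hw
          (ihJ (Or.inr ⟨hs, hb.mono (Finset.subset_insert _ _)⟩) (hb.mono (Finset.subset_insert _ _))) ?_
        refine ih s w _ _ (genPos_restriction hv hw) (hΛ.restrict j) ?_
        rcases Nat.lt_or_ge 1 n with h2 | h2
        · exact Or.inr ⟨by omega, hb.restrict h2 hj⟩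
        · exact Or.inl h2
  have hb : Bounded n Λ J := by
    rcases hJ with rfl | h
    · intro a _
      have h1 : lines a + zeros J a ≤ n + 3 := by
        unfold lines zeros
        rw [← Finset.card_union_of_disjoint]
        · exact le_trans (Finset.card_le_univ _) (by rw [Fintype.card_fin])
        · rw [Finset.disjoint_left]
          intro i hi hi'
          rw [Finset.mem_filter] at hi hi'
          exact hi.2 hi'.2
      omega
    · exact h
  have h1 := main n s v Λ J hv hΛ (Or.inr ⟨hs, hb⟩)
  exact ⟨h1, hM.duality n s v Λ J hv hΛ h1⟩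

end Pool.Agent.Results.MP_fc2ced_ag.StrataOfAbelianCoverings
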