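import Pool.Agent.Z125.UN.MotUni
import Pool.Agent.Q193.LT.Prime

/-!
# Schur-finiteness of motives and tripartite hypergraphs

Let `k` be a perfect field all of whose elements are quotients of integers, that is `k = ℚ` or
`k = 𝔽_p` (`Frac k`). For a finite set `H` of triples `(i, j, l)` of natural numbers (a tripartite
hypergraph) let `X_H` be the smooth affine cubic hypersurface `∑_{(i, j, l) ∈ H} x_i y_j z_l = 1`
over `k`, whose equation is a sum of different monomials with all coefficients equal to one.

**Theorem.** The motives of all smooth separated schemes of finite type over `k` are Schur-finite if and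
only if the motives of the hypersurfaces `X_H` are Schur-finite for all finite sets `H` of triples.

So over `ℚ` (and over `𝔽_p`) the question is about one explicit sequence of schemes, which does not
involve any coefficients. (The starting point `CubicHypersurfaces` is about the hypersurfaces
`T(x, y, z) = 1` for all trilinear forms `T` with arbitrary coefficients in `k`.) Every smooth scheme
over a number field, or over a finite field, is a smooth scheme over `ℚ`, or over `𝔽_p`.

The conditions on the category of geometric motives (`IsMotives`) are the ones of `CubicHypersurfaces`.
-/

set_option autoImplicit false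

open CategoryTheory MonoidalCategory AlgebraicGeometry Pool.Agent.TH137.DG Pool.Agent.Y116.UV
  Pool.Agent.Z125.UN Pool.Agent.Q193.LT

namespace Pool.Agent.Results.MP_fc2ced_ag.TripartiteHypergraphs

universe v u

variable {k : Type} [Field k] {C : Type u} [Category.{v} C] [MonoidalCategory C]
  [SymmetricCategory C] [Preadditive C] [Linear ℚ C] [Limits.HasZeroObject C] [HasShift C ℤ]
  [∀ n : ℤ, (shiftFunctor C n).Additive] [Pretriangulated C] {D : Motives k C}

/-- **Schur-finiteness of motives and tripartite hypergraphs.** Let `k` be the field of rational numbers
or a finite prime field. The motives of all smooth separated schemes of finite type over `k` are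
Schur-finite if and only if the motives of the hypersurfaces `∑_{(i, j, l) ∈ H} x_i y_j z_l = 1` over
`k` are Schur-finite for all finite sets `H` of triples. -/
theorem result [PerfectField k] (hk : Frac k) (hD : IsMotives D) :
    (∀ X : Sch k, FT True X → Smooth X.hom → IsSchurFinite (D.M X)) ↔
      ∀ (a b c : ℕ) (H : Finset (Fin a × Fin b × Fin c)), IsSchurFinite (D.M (tripS k H)) := by
  have hs : ∀ (a b c : ℕ) (H : Finset (Fin a × Fin b × Fin c)), Smooth (tripS k H).hom := by
    intro a b c H
    change Smooth (Spec.map (CommRingCat.ofHom (algebraMap k (Trip k H))))
    rw [HasRingHomProperty.Spec_iff (P := @Smooth)]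
    exact RingHom.smooth_algebraMap.mpr (trip_smooth H)
  constructor
  · intro h a b c H
    exact h _ (ft_aff True) (hs a b c H)
  · intro h X hX hX2
    rw [hD.duality X hX hX2]
    exact universal_frac hk (bnd_sf hD).toUni
      (fun a b c H => (hD.duality _ (ft_aff True) (hs a b c H)).mp (h a b c H)) X hX

end Pool.Agent.Results.MP_fc2ced_ag.TripartiteHypergraphs
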